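import Pool.Agent.H58.HN.TargetsA

/-!
# Module AC: the number of nonzero entries is bounded
-/

set_option autoImplicit false

namespace Pool.Agent.H52.HN

open Pool.Agent.H58.HN

private theorem nsmul_inj' {A : Type} [Ring A] [Algebra ℚ A] {v : A} (hv : v ≠ 0) {k l : ℕ}
    (h : k • v = l • v) : k = l := by
  have h1 : ((k : ℚ) - (l : ℚ)) • v = 0 := by
    rw [sub_smul, Nat.cast_smul_eq_nsmul, Nat.cast_smul_eq_nsmul, h, sub_self]
  rcases smul_eq_zero.mp h1 with h2 | h2
  · exact_mod_cast sub_eq_zero.mp h2
  · exact absurd h2 hv

theorem pf_AC : T_AC := by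
  intro A _ _ _ V Φ hS
  classical
  set N := hS.fin.toFinset.card with hN
  refine ⟨N * N, ?_⟩
  intro s hs t hts hne
  have hcount : ∀ v ∈ t.toFinset, Multiset.count v t ≤ N := by
    intro v hv
    have hv' : v ∈ t := Multiset.mem_toFinset.mp hv
    have hv0 := hne v hv'
    have hsub : (Finset.range (Multiset.count v t + 1)).image (fun k : ℕ => k • v) ⊆
        hS.fin.toFinset := by
      intro a ha
      rw [Finset.mem_image] at ha
      obtain ⟨k, hk, rfl⟩ := ha
      rw [Set.Finite.mem_toFinset]
      have hk' : k ≤ Multiset.count v t := by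
        have := Finset.mem_range.mp hk; omega
      have hle : Multiset.replicate k v ≤ s :=
        le_trans (Multiset.le_count_iff_replicate_le.mp hk') hts
      have := hS.mem s hs _ hle
      rwa [Multiset.sum_replicate] at this
    have hcard := Finset.card_le_card hsub
    rw [Finset.card_image_of_injective _ (fun k l h => nsmul_inj' hv0 h), Finset.card_range]
      at hcard
    omega
  have hcard : t.toFinset.card ≤ N := by
    apply Finset.card_le_card
    intro v hv
    have hv' : v ∈ t := Multiset.mem_toFinset.mp hv
    rw [Set.Finite.mem_toFinset]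
    have hle : ({v} : Multiset A) ≤ s :=
      le_trans (Multiset.singleton_le.mpr hv') hts
    have := hS.mem s hs _ hle
    rwa [Multiset.sum_singleton] at this
  calc Multiset.card t = ∑ v ∈ t.toFinset, Multiset.count v t :=
        (Multiset.toFinset_sum_count_eq t).symm
    _ ≤ ∑ _v ∈ t.toFinset, N := Finset.sum_le_sum hcount
    _ = t.toFinset.card * N := by rw [Finset.sum_const, smul_eq_mul]
    _ ≤ N * N := Nat.mul_le_mul_right _ hcard

end Pool.Agent.H52.HN
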