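import Pool.Agent.H58.HN.TargetsA

/-!
# Module AD: the other entries vanish
-/

set_option autoImplicit false

namespace Pool.Agent.H52.HN

open Pool.Agent.H58.HN

theorem pf_AD (hC : T_AC) : T_AD := by
  intro A _ _ _ V Φ hS e he u s hus n hn hpow v hv
  classical
  by_contra hev
  obtain ⟨B, hB⟩ := hC A V Φ hS
  obtain ⟨E, hEV, heE⟩ := he.mem
  obtain ⟨E', rfl⟩ := Multiset.exists_cons_of_mem heE
  have hee := he.idem
  set x : A := e * (u * e) with hx
  have hS1 : s + (e ::ₘ E').map (fun b => u * b) ∈ V := hS.sub u s _ hus hEV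
  have hW0 := hS.sub e E' _ hEV hS1
  set W' : Multiset A := E' + (s.map (fun b => e * b) +
    (E'.map (fun b => u * b)).map (fun b => e * b)) with hW'
  have hW : x ::ₘ W' ∈ V := by
    have : E' + (s + (e ::ₘ E').map (fun b => u * b)).map (fun b => e * b) = x ::ₘ W' := by
      rw [Multiset.map_add, Multiset.map_cons, Multiset.map_cons, Multiset.add_cons,
        Multiset.add_cons]
    rw [this] at hW0
    exact hW0
  let Y : A → Prop := fun y => y ≠ 0 ∧ e * y = y
  have hex : e * x = x := by rw [hx, ← mul_assoc, hee]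
  have hxn : x ^ n = e := by rw [hx, ← mul_assoc]; exact hpow
  have hYx : ∀ y, Y y → Y (x * y) := by
    intro y hy
    refine ⟨fun h0 => hy.1 ?_, by rw [← mul_assoc, hex]⟩
    obtain ⟨m, rfl⟩ := Nat.exists_eq_add_of_le hn
    have h1 : x ^ (1 + m) * y = 0 := by
      rw [add_comm, pow_succ, mul_assoc, h0, mul_zero]
    rw [hxn, hy.2] at h1
    exact h1
  have hvW : e * v ∈ W' := by
    rw [hW']
    exact Multiset.mem_add.mpr (Or.inr (Multiset.mem_add.mpr
      (Or.inl (Multiset.mem_map_of_mem _ hv))))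
  have hYv : Y (e * v) := ⟨hev, by rw [← mul_assoc, hee]⟩
  have h1W : 1 ≤ Multiset.card (W'.filter Y) := by
    rw [Nat.one_le_iff_ne_zero, Ne, Multiset.card_eq_zero]
    intro h0
    have : e * v ∈ W'.filter Y := Multiset.mem_filter.mpr ⟨hvW, hYv⟩
    rw [h0] at this
    exact absurd this (Multiset.notMem_zero _)
  have key : ∀ r : ℕ, ∃ g ∈ V, r ≤ Multiset.card (g.filter Y) := by
    intro r
    induction r with
    | zero => exact ⟨_, hW, Nat.zero_le _⟩
    | succ r ih =>
      obtain ⟨g, hg, hr⟩ := ih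
      refine ⟨W' + g.map (fun b => x * b), hS.sub x W' g hW hg, ?_⟩
      rw [Multiset.filter_add, Multiset.card_add]
      have h2 : (g.filter Y).map (fun b => x * b) ≤ (g.map (fun b => x * b)).filter Y := by
        rw [Multiset.le_filter]
        refine ⟨Multiset.map_le_map (Multiset.filter_le _ _), ?_⟩
        intro a ha
        obtain ⟨b, hb, rfl⟩ := Multiset.mem_map.mp ha
        exact hYx b (Multiset.mem_filter.mp hb).2
      have h3 := Multiset.card_le_card h2
      rw [Multiset.card_map] at h3
      omega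
  obtain ⟨g, hg, hr⟩ := key (B + 1)
  have := hB g hg (g.filter Y) (Multiset.filter_le _ _)
    (fun a ha => (Multiset.mem_filter.mp ha).2.1)
  omega

end Pool.Agent.H52.HN
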