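import Pool.Agent.H58.HN.TargetsA

/-!
# Module AE: growth of the sums
-/

set_option autoImplicit false

namespace Pool.Agent.H52.HN

open Pool.Agent.H58.HN

private theorem nsmul_zero' {A : Type} [Ring A] [Algebra ℚ A] {v : A} {k : ℕ} (hk : k ≠ 0)
    (h : k • v = 0) : v = 0 := by
  have h1 : (k : ℚ) • v = 0 := by rw [Nat.cast_smul_eq_nsmul, h]
  rcases smul_eq_zero.mp h1 with h2 | h2
  · exact absurd (by exact_mod_cast h2) hk
  · exact h2

theorem pf_AE : T_AE := by
  intro A _ _ _ V Φ hS e u t ht hu heu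
  obtain ⟨t', rfl⟩ := Multiset.exists_cons_of_mem hu
  let T : ℕ → Multiset A := fun r => Nat.rec {1} (fun _ W => t' + W.map (fun b => u * b)) r
  have hT0 : T 0 = {1} := rfl
  have hTs : ∀ r, T (r + 1) = t' + (T r).map (fun b => u * b) := fun r => rfl
  have hTV : ∀ r, T r ∈ V := by
    intro r
    induction r with
    | zero => rw [hT0]; exact hS.one
    | succ r ih => rw [hTs]; exact hS.sub u t' (T r) ht ih
  have hsum : ∀ r, e * (T r).sum = e + r • (e * (u ::ₘ t').sum - e) := by
    intro r
    induction r with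
    | zero => rw [hT0, Multiset.sum_singleton]; simp
    | succ r ih =>
      have h1 : (T (r + 1)).sum = t'.sum + u * (T r).sum := by
        rw [hTs, Multiset.sum_add, Multiset.sum_map_mul_left, Multiset.map_id']
      have h2 : (u ::ₘ t').sum = u + t'.sum := Multiset.sum_cons u t'
      rw [h1, mul_add, ← mul_assoc, heu, ih, h2, mul_add, heu, succ_nsmul]
      abel
  have hmem : ∀ r, (T r).sum ∈ Φ := fun r => hS.mem _ (hTV r) _ le_rfl
  -- pigeonhole
  have hninj : ¬ Function.Injective (fun r : ℕ => (⟨(T r).sum, hmem r⟩ : Φ)) := by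
    have : Finite Φ := hS.fin.to_subtype
    exact not_injective_infinite_finite _
  rw [Function.Injective] at hninj
  push Not at hninj
  obtain ⟨r, r', hrr, hne⟩ := hninj
  have hEq : (T r).sum = (T r').sum := congrArg Subtype.val hrr
  have key : ∀ r r' : ℕ, r < r' → (T r).sum = (T r').sum → e * (u ::ₘ t').sum = e := by
    intro r r' hlt h
    have h1 := hsum r
    have h2 := hsum r'
    rw [← h, h1] at h2
    obtain ⟨k, rfl⟩ := Nat.exists_eq_add_of_lt hlt
    have h3 : (k + 1) • (e * (u ::ₘ t').sum - e) = 0 := by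
      have h4 : (r + k + 1) • (e * (u ::ₘ t').sum - e) =
          r • (e * (u ::ₘ t').sum - e) + (k + 1) • (e * (u ::ₘ t').sum - e) := by
        rw [← add_nsmul]; congr 1
      rw [h4] at h2
      have h5 := add_left_cancel h2
      exact (left_eq_add.mp h5)
    exact sub_eq_zero.mp (nsmul_zero' (Nat.succ_ne_zero k) h3)
  rcases lt_or_gt_of_ne hne with h | h
  · exact key r r' h hEq
  · exact key r' r h hEq.symm

end Pool.Agent.H52.HN
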