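import Pool.Agent.H58.HN.TargetsG

/-!
# Module GC: the degree is constant along odd walks
-/

set_option autoImplicit false

namespace Pool.Agent.H52.HN

open Pool.Agent.H58.HN

theorem pf_GC : T_GC := by
  intro T A R _ act hsymm hD n w hw
  have hs : ∀ φ ψ : T → T, Arc R R φ ψ → Arc R R ψ φ :=
    fun φ ψ h x y hxy => hsymm _ _ (h y x (hsymm _ _ hxy))
  induction n with
  | zero => rfl
  | succ n ih =>
    have h0 := ih (fun k hk => hw k (by omega))
    have e1 : Arc R R (w (2 * n)) (w (2 * n + 1)) := hw _ (by omega)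
    have e2 : Arc R R (w (2 * n + 1)) (w (2 * n + 2)) := hw _ (by omega)
    have e3 : Arc R R (w (2 * n + 2)) (w (2 * n + 3)) := hw _ (by omega)
    have h1 : act (w (2 * n)) (w (2 * n + 1)) = act (w (2 * n + 2)) (w (2 * n + 1)) :=
      hD.left _ _ _ e1 (hs _ _ e2)
    have h2 : act (w (2 * n + 2)) (w (2 * n + 1)) = act (w (2 * n + 2)) (w (2 * n + 3)) :=
      hD.right _ _ _ (hs _ _ e2) e3
    rw [h0, h1, h2]
    rfl

end Pool.Agent.H52.HN
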