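import Pool.Agent.H58.HN.TargetsA

/-!
# Module AA: the entries form a finite multiplicative set; minimal idempotents; powers
-/

set_option autoImplicit false

namespace Pool.Agent.H52.HN

open Pool.Agent.H58.HN

theorem pf_AA : T_AA := by
  intro A _ _ _ V Φ hS
  classical
  have hfin : {a : A | ∃ s ∈ V, a ∈ s}.Finite := by
    refine hS.fin.subset ?_
    rintro a ⟨s, hs, ha⟩
    have := hS.mem s hs {a} (Multiset.singleton_le.mpr ha)
    rwa [Multiset.sum_singleton] at this
  have hmul : ∀ a b, (∃ s ∈ V, a ∈ s) → (∃ s ∈ V, b ∈ s) → ∃ s ∈ V, a * b ∈ s := by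
    rintro a b ⟨s, hs, ha⟩ ⟨t, ht, hb⟩
    obtain ⟨s', rfl⟩ := Multiset.exists_cons_of_mem ha
    exact ⟨_, hS.sub a s' t hs ht,
      Multiset.mem_add.mpr (Or.inr (Multiset.mem_map_of_mem (fun c => a * c) hb))⟩
  refine ⟨hfin, hmul, ?_, ?_⟩
  · -- a minimal idempotent
    let I : Set A := {a : A | (∃ s ∈ V, a ∈ s) ∧ a ≠ 0 ∧ a * a = a}
    have hI : I.Finite := hfin.subset (fun a ha => ha.1)
    have h1 : (1 : A) ∈ I :=
      ⟨⟨{1}, hS.one, Multiset.mem_singleton_self 1⟩, one_ne_zero, one_mul 1⟩
    have hne : hI.toFinset.Nonempty := ⟨1, (Set.Finite.mem_toFinset hI).mpr h1⟩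
    obtain ⟨e, heI, hmin⟩ := Finset.exists_min_image hI.toFinset
      (fun e => (hI.toFinset.filter (fun f => e * f = f ∧ f * e = f)).card) hne
    have heI' := (Set.Finite.mem_toFinset hI).mp heI
    refine ⟨e, heI'.1, heI'.2.1, heI'.2.2, ?_⟩
    intro f hf hff hef hfe
    by_cases hf0 : f = 0
    · exact Or.inl hf0
    refine Or.inr ?_
    by_contra hfe'
    have hfI : f ∈ hI.toFinset := (Set.Finite.mem_toFinset hI).mpr ⟨hf, hf0, hff⟩
    have h2 := hmin f hfI
    have h3 : (hI.toFinset.filter (fun g => f * g = g ∧ g * f = g)) ⊂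
        (hI.toFinset.filter (fun g => e * g = g ∧ g * e = g)) := by
      rw [Finset.ssubset_iff_of_subset]
      · refine ⟨e, Finset.mem_filter.mpr ⟨heI, heI'.2.2, heI'.2.2⟩, ?_⟩
        intro hmem
        have h4 := (Finset.mem_filter.mp hmem).2.1
        rw [hfe] at h4
        exact hfe' h4
      · intro g hg
        obtain ⟨hgI, hg1, hg2⟩ := Finset.mem_filter.mp hg
        refine Finset.mem_filter.mpr ⟨hgI, ?_, ?_⟩
        · calc e * g = e * (f * g) := by rw [hg1]
            _ = (e * f) * g := (mul_assoc _ _ _).symm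
            _ = g := by rw [hef, hg1]
        · calc g * e = (g * f) * e := by rw [hg2]
            _ = g * (f * e) := mul_assoc _ _ _
            _ = g := by rw [hfe, hg2]
    have h5 := Finset.card_lt_card h3
    exact absurd h2 (not_le.mpr h5)
  · -- powers
    intro e he x hx hex hxe
    have hpow : ∀ m : ℕ, ∃ s ∈ V, x ^ (m + 1) ∈ s := by
      intro m
      induction m with
      | zero => simpa using hx
      | succ m ih => rw [pow_succ]; exact hmul _ _ ih hx
    have hninj : ¬ Function.Injective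
        (fun m : ℕ => (⟨x ^ (m + 1), hpow m⟩ : {a : A | ∃ s ∈ V, a ∈ s})) := by
      have : Finite {a : A | ∃ s ∈ V, a ∈ s} := hfin.to_subtype
      exact not_injective_infinite_finite _
    rw [Function.Injective] at hninj
    push Not at hninj
    obtain ⟨a, b, hab, hne⟩ := hninj
    have hEq : x ^ (a + 1) = x ^ (b + 1) := congrArg Subtype.val hab
    have key : ∀ a b : ℕ, a < b → x ^ (a + 1) = x ^ (b + 1) →
        ∃ n, 1 ≤ n ∧ (x ^ n = 0 ∨ x ^ n = e) := by
      intro a b hlt h
      obtain ⟨p, rfl⟩ := Nat.exists_eq_add_of_lt hlt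
      have hper : ∀ k, a + 1 ≤ k → x ^ (k + (p + 1)) = x ^ k := by
        intro k hk
        obtain ⟨m, rfl⟩ := Nat.exists_eq_add_of_le hk
        have e1 : a + 1 + m + (p + 1) = (a + p + 1 + 1) + m := by ring
        rw [e1, pow_add, ← h, ← pow_add]
      have hper2 : ∀ j k, a + 1 ≤ k → x ^ (k + j * (p + 1)) = x ^ k := by
        intro j
        induction j with
        | zero => intro k _; simp
        | succ j ih =>
          intro k hk
          have e1 : k + (j + 1) * (p + 1) = (k + j * (p + 1)) + (p + 1) := by ring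
          rw [e1, hper _ (by omega), ih k hk]
      set n := (a + 1) * (p + 1) with hn
      have hn1 : a + 1 ≤ n := Nat.le_mul_of_pos_right _ (Nat.succ_pos p)
      have hn0 : 1 ≤ n := le_trans (by omega) hn1
      have hidem : x ^ n * x ^ n = x ^ n := by
        rw [← pow_add]
        exact hper2 (a + 1) n hn1
      obtain ⟨m, hm⟩ := Nat.exists_eq_add_of_le hn0
      have he1 : e * x ^ n = x ^ n := by
        rw [hm, add_comm, pow_succ', ← mul_assoc, hex]
      have he2 : x ^ n * e = x ^ n := by
        rw [hm, add_comm, pow_succ, mul_assoc, hxe]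
      have hent : ∃ s ∈ V, x ^ n ∈ s := by
        rw [hm, add_comm]; exact hpow m
      exact ⟨n, hn0, he.min _ hent hidem he1 he2⟩
    rcases lt_or_gt_of_ne hne with h | h
    · exact key a b h hEq
    · exact key b a h hEq.symm

end Pool.Agent.H52.HN
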